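import Pool.Agent.Helper81.OP.All
import Pool.Agent.Helper84.OPC.All

/-!
# MP_ec87e6_co

Every 1-planar chordal graph with toughness at least 3/2 (and at least three vertices) is
Hamiltonian.  In particular every 1-planar chordal graph with toughness exactly 3/2 is
Hamiltonian, which is the negated form of Q1.
-/

set_option autoImplicit false

open scoped ENNReal

namespace Pool.Agent.Results.MP_ec87e6_co.ToughChordalHamiltonian

/-- A finite 1-planar chordal graph with toughness at least `3/2` is Hamiltonian if its toughness is
exactly `3/2` or if it has at least three vertices. -/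
theorem result (V : Type) [Fintype V] [DecidableEq V] (G : SimpleGraph V)
    (h1 : OPC.OnePlanar G) (h2 : OPC.Chordal G) (h3 : 3 / 2 ≤ OPC.toughness G)
    (h4 : OPC.toughness G = 3 / 2 ∨ 3 ≤ Fintype.card V) : G.IsHamiltonian :=
  Pool.Agent.Helper81.OP.ham_OPC V G h2 h3
    (h4.elim (Pool.Agent.Helper81.OP.card_OPC V G) id) (OPC.all_NOK V G h1) (OPC.all_NOW V G h1)

end Pool.Agent.Results.MP_ec87e6_co.ToughChordalHamiltonian
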